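import Mathlib
import Pool.Agent.V7H48.BT.Main

/-!
# Bridge Theorem for actions of monoids on compact abelian groups

Let `S` be a monoid acting on the left on a compact Hausdorff abelian group `K` (written
multiplicatively) by continuous endomorphisms, and let `(F i)` be any net of nonempty finite subsets
of `S` (indexed along a proper filter `l`). Then the topological entropy of the action along `(F i)`
equals the algebraic entropy of the dual right action on the characters along `(F i)`:

* with upper limits in both definitions,
* with lower limits in both definitions,
* with limits in both definitions, whenever these limits exist.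

Problem MP_699bc8_an asks for this when `S` is cancellative and left amenable and `(F i)` is a left
Folner net; then all the limits exist and do not depend on the net, so each of the three
equalities reads `h_top(γ) = h_alg^r(γ^)`.

The proof: the covering number `N(𝒰_F)` is compared with `1 / μ(B_F(U))`, where `μ` is the Haar
measure and `B_F(U)` is the set of all `x` with `γ(s) x ∈ U` for all `s ∈ F`; and `μ(B_F(U))` is
compared with `|T_F(X)|` by Bessel's inequality, applied to products over `s ∈ F` of
`b ∘ γ(s)`, with `b` a product of Poisson kernels of the members of `X` in one direction, and with
`b` a trigonometric polynomial concentrated near `1` in the other direction.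
-/

set_option autoImplicit false

open Filter Topology Pool.Agent.V7H48.BT

universe u v w

namespace Pool.Agent.Results.MP_699bc8_an.BridgeTheoremH48

theorem result {S : Type u} [Monoid S] {K : Type v} [CommGroup K] [TopologicalSpace K]
    [IsTopologicalGroup K] [CompactSpace K] [T2Space K] [MulDistribMulAction S K]
    [ContinuousConstSMul S K] {ι : Type w} (l : Filter ι) [l.NeBot] (F : ι → Finset S)
    (hF : ∀ i, (F i).Nonempty) :
    topEntropySup K F l = algEntropySup K F l ∧
      topEntropyInf K F l = algEntropyInf K F l ∧
      ∀ h h' : EReal, HasTopEntropy K F l h → HasAlgEntropy K F l h' → h = h' :=
  ⟨topEntropySup_eq l F hF, topEntropyInf_eq l F hF, fun _ _ h1 h2 => has_eq hF h1 h2⟩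

end Pool.Agent.Results.MP_699bc8_an.BridgeTheoremH48
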